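import Pool.Agent.Run7.h875.TS.StmA

/-!
# SQF: squarefree polynomials prime to a given polynomial have positive density

Project TS (helper875), problem MP_48b749_nt; helper784. We count the `f` congruent to `1` modulo `B` and
remove the multiples of `y ^ 2`, `y` monic of positive degree.
-/

set_option autoImplicit false
set_option linter.all false

open Polynomial
open Run7.h875.TS
open scoped Classical

namespace Run7.h784.TS.SQF

variable {k : Type} [Field k] [Finite k]

theorem three_le (h2 : (2 : k) ≠ 0) : 3 ≤ Nat.card k := by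
  have h : Function.Injective (![0, 1, -1] : Fin 3 → k) := by
    have h1 : (1 : k) ≠ -1 := by
      intro h0
      apply h2
      linear_combination h0
    intro i j hij
    fin_cases i <;> fin_cases j <;> simp at hij ⊢
    · exact h1 hij
    · exact h1 hij.symm
  have := Nat.card_le_card_of_injective _ h
  simpa using this

theorem fin_lt (m : ℕ) : {h : k[X] | h.degree < m}.Finite ∧
    {h : k[X] | h.degree < m}.ncard = Nat.card k ^ m := by
  have e : {h : k[X] | h.degree < m} = (degreeLT k m : Set k[X]) := by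
    ext h
    simp [mem_degreeLT]
  have h1 : Nat.card (degreeLT k m) = Nat.card k ^ m := by
    rw [Nat.card_congr (degreeLTEquiv k m).toEquiv, Nat.card_fun, Nat.card_fin]
  have hf : Finite (degreeLT k m) := Finite.of_equiv _ (degreeLTEquiv k m).toEquiv.symm
  rw [e]
  exact ⟨Set.toFinite _, h1⟩

theorem ncard_le_of (C : k[X]) (hC : C ≠ 0) (n : ℕ) (T : Set k[X])
    (hT : ∀ f ∈ T, ∀ f' ∈ T, C ∣ f - f' ∧ (f - f').degree < n) :
    T.Finite ∧ T.ncard ≤ Nat.card k ^ (n - C.natDegree) := by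
  rcases T.eq_empty_or_nonempty with rfl | ⟨f₀, h₀⟩
  · simp
  obtain ⟨hf, hc⟩ := fin_lt (k := k) (n - C.natDegree)
  have hsub : T ⊆ (fun h => f₀ + C * h) '' {h : k[X] | h.degree < (n - C.natDegree : ℕ)} := by
    intro f hfT
    obtain ⟨⟨h, hh⟩, hd⟩ := hT f hfT f₀ h₀
    refine ⟨h, ?_, by simp only; rw [← hh]; ring⟩
    by_cases hh0 : h = 0
    · rw [hh0]
      simp [WithBot.bot_lt_coe]
    · rw [hh, degree_mul, degree_eq_natDegree hC, degree_eq_natDegree hh0] at hd
      change h.degree < _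
      rw [degree_eq_natDegree hh0]
      have : C.natDegree + h.natDegree < n := by exact_mod_cast hd
      exact_mod_cast (by omega : h.natDegree < n - C.natDegree)
  refine ⟨(hf.image _).subset hsub, ?_⟩
  calc T.ncard ≤ _ := Set.ncard_le_ncard hsub (hf.image _)
    _ ≤ _ := Set.ncard_image_le hf
    _ = _ := hc

theorem deg_sub {f f' : k[X]} {n : ℕ} (h1 : f.Monic) (h2 : f'.Monic) (h3 : f.natDegree = n)
    (h4 : f'.natDegree = n) : (f - f').degree < n := by
  have e1 : f.degree = n := by rw [degree_eq_natDegree h1.ne_zero, h3]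
  have e2 : f'.degree = n := by rw [degree_eq_natDegree h2.ne_zero, h4]
  rw [← e1]
  exact degree_sub_lt (e1.trans e2.symm) h1.ne_zero (by rw [h1.leadingCoeff, h2.leadingCoeff])

theorem mon (j : ℕ) : {y : k[X] | y.Monic ∧ y.natDegree = j}.Finite ∧
    {y : k[X] | y.Monic ∧ y.natDegree = j}.ncard ≤ Nat.card k ^ j := by
  have := ncard_le_of (1 : k[X]) one_ne_zero j {y : k[X] | y.Monic ∧ y.natDegree = j}
    (fun f hf f' hf' => ⟨one_dvd _, deg_sub hf.1 hf'.1 hf.2 hf'.2⟩)
  simpa using this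

/-- The set sieved. -/
def AA (B : k[X]) (n : ℕ) : Set k[X] := {f | f.Monic ∧ f.natDegree = n ∧ B ∣ f - 1}

theorem fin_AA (B : k[X]) (n : ℕ) : (AA B n).Finite :=
  (mon n).1.subset fun _ hf => ⟨hf.1, hf.2.1⟩

theorem le_AA (B : k[X]) (hB : B ≠ 0) (n : ℕ) (hn : B.natDegree < n) :
    Nat.card k ^ (n - B.natDegree) ≤ (AA B n).ncard := by
  obtain ⟨hf, hc⟩ := fin_lt (k := k) (n - B.natDegree)
  rw [← hc]
  have hl : B.leadingCoeff ≠ 0 := leadingCoeff_ne_zero.2 hB
  refine Set.ncard_le_ncard_of_injOn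
    (fun h => 1 + B * (C B.leadingCoeff⁻¹ * X ^ (n - B.natDegree) + h)) ?_ ?_ (fin_AA B n)
  · intro h hh
    change h.degree < _ at hh
    have e0 : (C B.leadingCoeff⁻¹ * X ^ (n - B.natDegree) : k[X]).degree =
        (n - B.natDegree : ℕ) := degree_C_mul_X_pow _ (inv_ne_zero hl)
    have e1 : h.degree < (C B.leadingCoeff⁻¹ * X ^ (n - B.natDegree) : k[X]).degree := by
      rw [e0]; exact hh
    have e2 : (C B.leadingCoeff⁻¹ * X ^ (n - B.natDegree) + h : k[X]).degree =
        (n - B.natDegree : ℕ) := by rw [degree_add_eq_left_of_degree_lt e1, e0]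
    have e3 : (C B.leadingCoeff⁻¹ * X ^ (n - B.natDegree) + h : k[X]).leadingCoeff =
        B.leadingCoeff⁻¹ := by
      rw [leadingCoeff_add_of_degree_lt' e1, leadingCoeff_C_mul_X_pow]
    have e4 : (B * (C B.leadingCoeff⁻¹ * X ^ (n - B.natDegree) + h)).Monic := by
      rw [Monic, leadingCoeff_mul, e3, mul_inv_cancel₀ hl]
    have e5 : (B * (C B.leadingCoeff⁻¹ * X ^ (n - B.natDegree) + h)).degree =
        ((n : ℕ) : WithBot ℕ) := by
      rw [degree_mul, e2, degree_eq_natDegree hB]
      exact_mod_cast (by omega : B.natDegree + (n - B.natDegree) = n)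
    have e6 : (1 : k[X]).degree < (B * (C B.leadingCoeff⁻¹ * X ^ (n - B.natDegree) + h)).degree := by
      rw [e5, degree_one]
      exact_mod_cast (by omega : 0 < n)
    refine ⟨e4.add_of_right e6, ?_, ?_⟩
    · apply natDegree_eq_of_degree_eq_some
      rw [degree_add_eq_right_of_degree_lt e6, e5]
    · exact ⟨_, add_sub_cancel_left _ _⟩
  · intro h _ h' _ e
    simp only [add_right_inj, mul_eq_mul_left_iff] at e
    rcases e with e | e
    · exact e
    · exact absurd e hB

theorem bad (B : k[X]) (hB : B ≠ 0) (n : ℕ) :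
    {f ∈ AA B n | ¬ Squarefree f}.ncard ≤
      ∑ j ∈ Finset.Icc 1 (n / 2), Nat.card k ^ j * Nat.card k ^ (n - (B.natDegree + 2 * j)) := by
  have hfin := fin_AA B n
  have h1 : {f ∈ AA B n | ¬ Squarefree f} =
      ((hfin.toFinset.filter fun f => ¬ Squarefree f : Finset k[X]) : Set k[X]) := by
    ext f
    simp
  have h2 : (hfin.toFinset.filter fun f => ¬ Squarefree f) ⊆
      (Finset.Icc 1 (n / 2)).biUnion fun j => (mon (k := k) j).1.toFinset.biUnion fun y =>
        hfin.toFinset.filter fun f => y ^ 2 ∣ f := by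
    intro f hf
    rw [Finset.mem_filter, Set.Finite.mem_toFinset] at hf
    obtain ⟨hfA, hns⟩ := hf
    rw [Squarefree] at hns
    push Not at hns
    obtain ⟨x, hx, hxu⟩ := hns
    have hf0 : f ≠ 0 := hfA.1.ne_zero
    have hx0 : x ≠ 0 := by
      rintro rfl
      rw [zero_mul, zero_dvd_iff] at hx
      exact hf0 hx
    have hym : (normalize x).Monic := monic_normalize hx0
    have hyd : (normalize x).natDegree = x.natDegree := natDegree_eq_of_degree_eq degree_normalize
    have hy2 : (normalize x) ^ 2 ∣ f := by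
      rw [pow_two]
      exact (mul_dvd_mul (normalize_dvd_iff.2 dvd_rfl) (normalize_dvd_iff.2 dvd_rfl)).trans hx
    have hpos : 0 < x.natDegree := by
      rw [Nat.pos_iff_ne_zero]
      intro h0
      apply hxu
      rw [eq_C_of_natDegree_eq_zero h0] at hx0 ⊢
      rw [Ne, C_eq_zero] at hx0
      exact isUnit_C.2 (isUnit_iff_ne_zero.2 hx0)
    have hle : 2 * x.natDegree ≤ n := by
      have := natDegree_le_of_dvd hy2 hf0
      rw [natDegree_pow, hyd, hfA.2.1] at this
      exact this
    rw [Finset.mem_biUnion]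
    refine ⟨x.natDegree, Finset.mem_Icc.2 ⟨hpos, by omega⟩, ?_⟩
    rw [Finset.mem_biUnion]
    refine ⟨normalize x, ?_, ?_⟩
    · rw [Set.Finite.mem_toFinset]
      exact ⟨hym, hyd⟩
    · rw [Finset.mem_filter, Set.Finite.mem_toFinset]
      exact ⟨hfA, hy2⟩
  rw [h1, Set.ncard_coe_finset]
  refine (Finset.card_le_card h2).trans (Finset.card_biUnion_le.trans ?_)
  apply Finset.sum_le_sum
  intro j _
  refine Finset.card_biUnion_le.trans ?_
  have h3 : ∀ y ∈ (mon (k := k) j).1.toFinset,
      (hfin.toFinset.filter fun f => y ^ 2 ∣ f).card ≤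
        Nat.card k ^ (n - (B.natDegree + 2 * j)) := by
    intro y hy
    rw [Set.Finite.mem_toFinset] at hy
    obtain ⟨hym, hyd⟩ := hy
    have hC : B * y ^ 2 ≠ 0 := mul_ne_zero hB (pow_ne_zero _ hym.ne_zero)
    have := (ncard_le_of (B * y ^ 2) hC n
      ((hfin.toFinset.filter fun f => y ^ 2 ∣ f : Finset k[X]) : Set k[X]) ?_).2
    · rw [Set.ncard_coe_finset, natDegree_mul hB (pow_ne_zero _ hym.ne_zero), natDegree_pow, hyd]
        at this
      exact this
    · intro f hf f' hf'
      rw [Finset.mem_coe, Finset.mem_filter, Set.Finite.mem_toFinset] at hf hf'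
      refine ⟨?_, deg_sub hf.1.1 hf'.1.1 hf.1.2.1 hf'.1.2.1⟩
      have hcop : IsCoprime B (y ^ 2) := by
        obtain ⟨g, hg⟩ := hf.1.2.2
        have h5 : IsCoprime B f := ⟨-g, 1, by linear_combination hg⟩
        exact h5.of_isCoprime_of_dvd_right hf.2
      refine hcop.mul_dvd ?_ (dvd_sub hf.2 hf'.2)
      have := dvd_sub hf.1.2.2 hf'.1.2.2
      rwa [sub_sub_sub_cancel_right] at this
  calc _ ≤ ∑ y ∈ (mon (k := k) j).1.toFinset, Nat.card k ^ (n - (B.natDegree + 2 * j)) :=
        Finset.sum_le_sum h3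
    _ = (mon (k := k) j).1.toFinset.card * Nat.card k ^ (n - (B.natDegree + 2 * j)) := by
        rw [Finset.sum_const, smul_eq_mul]
    _ ≤ _ := by
        apply Nat.mul_le_mul_right
        exact (Set.ncard_eq_toFinset_card _ (mon j).1).symm.le.trans (mon j).2

theorem sum_inv {x : ℝ} (h0 : 0 ≤ x) (h1 : x ≤ 1 / 3) (J : ℕ) :
    ∑ j ∈ Finset.Icc 1 J, x ^ j ≤ (1 - x ^ J) / 2 := by
  induction J with
  | zero => simp
  | succ J ih =>
    rw [Finset.sum_Icc_succ_top (by omega)]
    have h3 : x ^ (J + 1) ≤ x ^ J * (1 / 3) := by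
      rw [pow_succ]
      exact mul_le_mul_of_nonneg_left h1 (by positivity)
    linarith

theorem sum_pow {q : ℝ} (h1 : 2 ≤ q) (J : ℕ) :
    ∑ j ∈ Finset.Icc 1 J, q ^ j ≤ 2 * q ^ J := by
  induction J with
  | zero => simp
  | succ J ih =>
    rw [Finset.sum_Icc_succ_top (by omega)]
    have h0 : 0 ≤ q ^ J := by positivity
    have h3 : q ^ J * 2 ≤ q ^ (J + 1) := by
      rw [pow_succ]
      exact mul_le_mul_of_nonneg_left h1 h0
    linarith

theorem sqf' : S_SQF := by
  intro k _ _ h6 B hB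
  have hfin : ∀ N, (sqf B N).Finite := fun N =>
    (mon N).1.subset fun f hf => ⟨hf.1, hf.2.1⟩
  refine ⟨hfin, ?_⟩
  have h2 : (2 : k) ≠ 0 := by
    intro h0
    apply h6
    rw [show (6 : k) = 2 * 3 by norm_num, h0, zero_mul]
  have hq3 := three_le h2
  set q : ℝ := (Nat.card k : ℝ) with hq
  have hq3' : (3 : ℝ) ≤ q := by rw [hq]; exact_mod_cast hq3
  have hq0 : (0 : ℝ) < q := by linarith
  refine ⟨1 / 4 * (1 / q) ^ B.natDegree, by positivity, 2 * B.natDegree + 4, ?_⟩
  intro n hn
  have hA := le_AA B hB n (by omega)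
  have hbad := bad B hB n
  have hsplit : (AA B n).ncard ≤ (sqf B n).ncard + {f ∈ AA B n | ¬ Squarefree f}.ncard := by
    refine (Set.ncard_le_ncard (t := sqf B n ∪ {f ∈ AA B n | ¬ Squarefree f}) ?_
      ((hfin n).union ((fin_AA B n).subset (Set.sep_subset _ _)))).trans (Set.ncard_union_le _ _)
    intro f hf
    by_cases hs : Squarefree f
    · left
      refine ⟨hf.1, hf.2.1, hs, ?_⟩
      obtain ⟨g, hg⟩ := hf.2.2
      exact ⟨1, -g, by linear_combination hg⟩
    · right
      exact ⟨hf, hs⟩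
  have h3 : (q : ℝ) ^ (n - B.natDegree) ≤ ((sqf B n).ncard : ℝ) +
      ∑ j ∈ Finset.Icc 1 (n / 2), q ^ j * q ^ (n - (B.natDegree + 2 * j)) := by
    have : Nat.card k ^ (n - B.natDegree) ≤ (sqf B n).ncard +
      ∑ j ∈ Finset.Icc 1 (n / 2), Nat.card k ^ j * Nat.card k ^ (n - (B.natDegree + 2 * j)) := by
      omega
    rw [hq]
    exact_mod_cast this
  have h4 : ∑ j ∈ Finset.Icc 1 (n / 2), q ^ j * q ^ (n - (B.natDegree + 2 * j)) ≤
      q ^ (n - B.natDegree) * (1 / 2) + 2 * q ^ (n / 2) := by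
    have h5 : ∀ j ∈ Finset.Icc 1 (n / 2), q ^ j * q ^ (n - (B.natDegree + 2 * j)) ≤
        q ^ (n - B.natDegree) * (1 / q) ^ j + q ^ j := by
      intro j _
      by_cases hj : B.natDegree + 2 * j ≤ n
      · have e : q ^ j * q ^ (n - (B.natDegree + 2 * j)) = q ^ (n - B.natDegree) * (1 / q) ^ j := by
          rw [one_div, inv_pow, eq_mul_inv_iff_mul_eq₀ (by positivity), ← pow_add, ← pow_add]
          congr 1
          omega
        rw [e]
        have : 0 ≤ q ^ j := by positivity
        linarith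
      · have e : n - (B.natDegree + 2 * j) = 0 := by omega
        rw [e, pow_zero, mul_one]
        have : 0 ≤ q ^ (n - B.natDegree) * (1 / q) ^ j := by positivity
        linarith
    refine (Finset.sum_le_sum h5).trans ?_
    rw [Finset.sum_add_distrib, ← Finset.mul_sum]
    have h6 := sum_inv (x := 1 / q) (by positivity)
      (by rw [div_le_div_iff₀ hq0 (by norm_num)]; linarith) (n / 2)
    have h7 := sum_pow (q := q) (by linarith) (n / 2)
    have h8 : 0 ≤ (1 / q) ^ (n / 2) := by positivity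
    have h9 : q ^ (n - B.natDegree) * ∑ j ∈ Finset.Icc 1 (n / 2), (1 / q) ^ j ≤
        q ^ (n - B.natDegree) * (1 / 2) :=
      mul_le_mul_of_nonneg_left (by linarith) (by positivity)
    linarith
  have h5 : 9 * q ^ (n / 2) ≤ q ^ (n - B.natDegree) := by
    have e : q ^ (n - B.natDegree) = q ^ (n - B.natDegree - n / 2 - 2) * q ^ 2 * q ^ (n / 2) := by
      rw [← pow_add, ← pow_add]
      congr 1
      omega
    rw [e]
    apply mul_le_mul_of_nonneg_right _ (by positivity)
    have h6 : (1 : ℝ) ≤ q ^ (n - B.natDegree - n / 2 - 2) := one_le_pow₀ (by linarith)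
    have h7 : (9 : ℝ) ≤ q ^ 2 := by nlinarith
    nlinarith
  have h6 : 1 / 4 * (1 / q) ^ B.natDegree * q ^ n = 1 / 4 * q ^ (n - B.natDegree) := by
    rw [one_div q, inv_pow, mul_assoc]
    congr 1
    rw [inv_mul_eq_iff_eq_mul₀ (by positivity), ← pow_add]
    congr 1
    omega
  rw [h6]
  have h7 : 0 < q ^ (n - B.natDegree) := by positivity
  linarith

end Run7.h784.TS.SQF
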