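import Pool.Agent.Run7.h875.TS.StmA
import Pool.Agent.Run7.h225.TS.GRP
import Pool.Agent.N862.PP.Nrm

/-!
# ONE: the average of the order of the Selmer group after one step

Project TS (helper875), problem MP_48b749_nt; helper784.
-/

set_option autoImplicit false
set_option linter.all false

open Polynomial IsDedekindDomain
open Pool.Agent.N874.PP Pool.Agent.TH115.GD Run7.h875.TS
open scoped Classical

namespace Run7.h784.TS

/-! ### The quadratic character -/

section chi
variable {F : Type} [Field F] [Fintype F]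

theorem chi_zero : chi (0 : F) = 0 := by simp [chi]

theorem chi_ne {x : F} (hx : x ≠ 0) : chi x = 1 ∨ chi x = -1 := by
  unfold chi
  rcases quadraticChar_dichotomy hx with h | h
  · left; rw [h]; norm_num
  · right; rw [h]; norm_num

theorem chi_cases (x : F) : chi x = 0 ∨ chi x = 1 ∨ chi x = -1 := by
  by_cases hx : x = 0
  · left; rw [hx, chi_zero]
  · right; exact chi_ne hx

theorem chi_mul (x y : F) : chi (x * y) = chi x * chi y := by
  unfold chi
  rw [map_mul]
  push_cast
  ring

theorem chi_le (x : F) : chi x ≤ 1 := by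
  rcases chi_cases x with h | h | h <;> rw [h] <;> norm_num

theorem le_chi (x : F) : -1 ≤ chi x := by
  rcases chi_cases x with h | h | h <;> rw [h] <;> norm_num

end chi

/-! ### Indices -/

theorem relIndex_eq_card {G ι : Type} [Group G] (H A : Subgroup G) (r : ι → G)
    (hr : ∀ i, r i ∈ A) (hinj : ∀ i j, (r i)⁻¹ * r j ∈ H → i = j)
    (hsurj : ∀ x ∈ A, ∃ i, (r i)⁻¹ * x ∈ H) : H.relIndex A = Nat.card ι := by
  unfold Subgroup.relIndex Subgroup.index
  symm
  apply Nat.card_congr
  refine Equiv.ofBijective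
    (fun i => (QuotientGroup.mk (⟨r i, hr i⟩ : A) : A ⧸ H.subgroupOf A)) ⟨?_, ?_⟩
  · intro i j hij
    have := QuotientGroup.eq.1 hij
    exact hinj i j (by simpa [Subgroup.mem_subgroupOf] using this)
  · intro q
    obtain ⟨⟨x, hx⟩, rfl⟩ := QuotientGroup.mk_surjective q
    obtain ⟨i, hi⟩ := hsurj x hx
    refine ⟨i, ?_⟩
    exact QuotientGroup.eq.2 (by simpa [Subgroup.mem_subgroupOf] using hi)

/-! ### The norm form -/

theorem dn_eq_zero {k F : Type} [Field k] [Field F] [Algebra k F] (a b : k[X]) (v : Fin 3 → k[X])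
    (t c : F) (hc : c ^ 3 + aeval t a * c + aeval t b = 0) (hz : zev t c v = 0) :
    aeval t (Pool.Agent.N862.PP.dn a b v) = 0 := by
  unfold Pool.Agent.N862.PP.dn
  unfold zev at hz
  simp only [map_sub, map_mul, map_add, map_neg]
  set A := aeval t a
  set B := aeval t b
  set p := aeval t (v 0)
  set q := aeval t (v 1)
  set r := aeval t (v 2)
  linear_combination ((p - A * r) * (p - A * r) - (-B * r - A * q) * q
      - (q * (p - A * r) - (-B * r - A * q) * r) * c + (q * q - (p - A * r) * r) * c ^ 2) * hz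
    - (- (q * (p - A * r) - (-B * r - A * q) * r) * r + (q * q - (p - A * r) * r) * (q + r * c)) * hc

theorem natDegree_dn {k : Type} [Field k] (a b : k[X]) (v : Fin 3 → k[X]) (N : ℕ)
    (hN : ∀ i, (v i).natDegree ≤ N) : (Pool.Agent.N862.PP.dn a b v).natDegree ≤
      3 * N + 2 * (a.natDegree + b.natDegree) := by
  unfold Pool.Agent.N862.PP.dn
  have e1 : (v 0 - a * v 2).natDegree ≤ N + a.natDegree := by
    refine (natDegree_sub_le _ _).trans (max_le ((hN 0).trans (by omega)) ?_)
    exact natDegree_mul_le.trans (by have := hN 2; omega)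
  have e2 : (-b * v 2 - a * v 1).natDegree ≤ N + (a.natDegree + b.natDegree) := by
    refine (natDegree_sub_le _ _).trans (max_le ?_ ?_)
    · refine natDegree_mul_le.trans ?_
      rw [natDegree_neg]
      have := hN 2
      omega
    · exact natDegree_mul_le.trans (by have := hN 1; omega)
  have h0 := hN 0
  have h1 := hN 1
  have h2 := hN 2
  have e3 : (-b * v 2).natDegree ≤ N + b.natDegree := by
    refine natDegree_mul_le.trans ?_
    rw [natDegree_neg]
    omega
  have e4 : (-b * v 1).natDegree ≤ N + b.natDegree := by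
    refine natDegree_mul_le.trans ?_
    rw [natDegree_neg]
    omega
  refine (natDegree_add_le _ _).trans (max_le ((natDegree_sub_le _ _).trans (max_le ?_ ?_)) ?_)
  · refine natDegree_mul_le.trans ?_
    have : ((v 0 - a * v 2) * (v 0 - a * v 2) - (-b * v 2 - a * v 1) * v 1).natDegree ≤
        2 * N + 2 * (a.natDegree + b.natDegree) := by
      refine (natDegree_sub_le _ _).trans (max_le ?_ ?_)
      · exact natDegree_mul_le.trans (by omega)
      · exact natDegree_mul_le.trans (by omega)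
    omega
  · refine natDegree_mul_le.trans ?_
    have : (v 1 * (v 0 - a * v 2) - (-b * v 2 - a * v 1) * v 2).natDegree ≤
        2 * N + (a.natDegree + b.natDegree) := by
      refine (natDegree_sub_le _ _).trans (max_le ?_ ?_)
      · exact natDegree_mul_le.trans (by omega)
      · exact natDegree_mul_le.trans (by omega)
    omega
  · refine natDegree_mul_le.trans ?_
    have : (v 1 * v 1 - (v 0 - a * v 2) * v 2).natDegree ≤
        2 * N + (a.natDegree + b.natDegree) := by
      refine (natDegree_sub_le _ _).trans (max_le ?_ ?_)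
      · exact natDegree_mul_le.trans (by omega)
      · exact natDegree_mul_le.trans (by omega)
    omega

/-! ### Roots of polynomials in finite fields -/

theorem card_zeros {k F : Type} [Field k] [Field F] [Fintype F] [Algebra k F] {f : k[X]}
    (hf : f ≠ 0) : (Finset.univ.filter fun t : F => aeval t f = 0).card ≤ f.natDegree := by
  have h1 : f.map (algebraMap k F) ≠ 0 := by
    rwa [Ne, Polynomial.map_eq_zero]
  have h2 : (Finset.univ.filter fun t : F => aeval t f = 0) ⊆
      (f.map (algebraMap k F)).roots.toFinset := by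
    intro t ht
    rw [Finset.mem_filter] at ht
    rw [Multiset.mem_toFinset, mem_roots h1, IsRoot.def, eval_map, ← aeval_def]
    exact ht.2
  calc _ ≤ _ := Finset.card_le_card h2
    _ ≤ _ := Multiset.toFinset_card_le _
    _ ≤ _ := card_roots' _
    _ = _ := natDegree_map _

theorem card_minpoly {k F : Type} [Field k] [Field F] [Fintype F] [Algebra k F]
    (S : Finset k[X]) (hS : ∀ P ∈ S, P ≠ 0) :
    (Finset.univ.filter fun t : F => minpoly k t ∈ S).card ≤ dg S := by
  have h1 : (Finset.univ.filter fun t : F => minpoly k t ∈ S) ⊆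
      S.biUnion fun P => Finset.univ.filter fun t : F => aeval t P = 0 := by
    intro t ht
    rw [Finset.mem_filter] at ht
    rw [Finset.mem_biUnion]
    exact ⟨_, ht.2, by rw [Finset.mem_filter]; exact ⟨Finset.mem_univ _, minpoly.aeval k t⟩⟩
  calc _ ≤ _ := Finset.card_le_card h1
    _ ≤ _ := Finset.card_biUnion_le
    _ ≤ _ := Finset.sum_le_sum fun P hP => card_zeros (hS P hP)

/-! ### Representatives -/

section reps

variable {k K L O : Type} [Field k] [Finite k] [Field K] [Algebra k[X] K]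
  [IsFractionRing k[X] K]
  [Field L] [Algebra K L] [Algebra k[X] L] [IsScalarTower k[X] K L] [CommRing O]
  [IsDedekindDomain O] [Algebra O L] [IsFractionRing O L] [Algebra k[X] O]
  [IsScalarTower k[X] O L] [IsIntegralClosure O k[X] L] {a b : k[X]} {θ : L}

/-- Small representatives of the classes of the Selmer group. -/
structure Reps (h : IsCub K a b θ) (O : Type) [CommRing O] [IsDedekindDomain O] [Algebra O L]
    [IsFractionRing O L] [Algebra k[X] O] (S : Finset k[X]) (u : k[X] → k[X]) (N : ℕ)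
    {ι : Type} (r : ι → Lˣ) (z : ι → Fin 3 → k[X]) (i₀ : ι) : Prop where
  sel : ∀ i, SelC h O S u (r i : L)
  mem : ∀ i, r i ∈ SelG h O S u
  inj : ∀ i j, (r i)⁻¹ * r j ∈ sqL L → i = j
  surj : ∀ x ∈ SelG h O S u, ∃ i, (r i)⁻¹ * x ∈ sqL L
  crd : ∀ i, Crd θ (z i) (r i : L)
  deg : ∀ i l, (z i l).natDegree ≤ N
  one : ∀ i, IsSquare (r i : L) → i = i₀

theorem exists_reps (hGRP : S_GRP) (h6 : (6 : k) ≠ 0)
    (h : IsCub K a b θ) {S : Finset k[X]} {u : k[X] → k[X]} (hG : GoodT a b S u) {N : ℕ}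
    (hN : ∀ α : L, SelC h O S u α → ∃ (r : L) (z : Fin 3 → k[X]), r ≠ 0 ∧ Crd θ z (α * r ^ 2) ∧
        ∀ i, (z i).natDegree ≤ N) (hs : sz (SelG h O S u) ≠ 0) :
    ∃ (ι : Type) (_ : Fintype ι) (r : ι → Lˣ) (z : ι → Fin 3 → k[X]) (i₀ : ι),
      Reps h O S u N r z i₀ := by
  obtain ⟨hg1, hg2⟩ := hGRP k K L O a b θ h6 h S u hG
  have hfin : Finite (SelG h O S u ⧸ (sqL L).subgroupOf (SelG h O S u)) :=
    Nat.finite_of_card_ne_zero hs
  have key : ∀ q : SelG h O S u ⧸ (sqL L).subgroupOf (SelG h O S u),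
      ∃ (x : Lˣ) (z : Fin 3 → k[X]), ∃ hx : x ∈ SelG h O S u,
        (QuotientGroup.mk (⟨x, hx⟩ : SelG h O S u) :
          SelG h O S u ⧸ (sqL L).subgroupOf (SelG h O S u)) = q ∧
        Crd θ z (x : L) ∧ ∀ l, (z l).natDegree ≤ N := by
    intro q
    obtain ⟨⟨x, hx⟩, rfl⟩ := QuotientGroup.mk_surjective q
    obtain ⟨r, z, hr, hz, hd⟩ := hN _ ((hg1 x).1 hx)
    have hsq : (Units.mk0 r hr) ^ 2 ∈ sqL L := ⟨Units.mk0 r hr, rfl⟩
    refine ⟨x * (Units.mk0 r hr) ^ 2, z, Subgroup.mul_mem _ hx (hg2 hsq), ?_, ?_, hd⟩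
    · rw [QuotientGroup.eq, Subgroup.mem_subgroupOf]
      have : (x * (Units.mk0 r hr) ^ 2)⁻¹ * x = ((Units.mk0 r hr) ^ 2)⁻¹ := by
        rw [mul_inv_rev, mul_assoc, inv_mul_cancel, mul_one]
      change (x * (Units.mk0 r hr) ^ 2)⁻¹ * x ∈ sqL L
      rw [this]
      exact Subgroup.inv_mem _ hsq
    · simpa using hz
  choose r z hr hq hc hd using key
  refine ⟨_, Fintype.ofFinite _, r, z, QuotientGroup.mk 1, ?_⟩
  refine ⟨fun i => (hg1 _).1 (hr i), hr, ?_, ?_, hc, hd, ?_⟩
  · intro i j hij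
    rw [← hq i, ← hq j, QuotientGroup.eq, Subgroup.mem_subgroupOf]
    exact hij
  · intro x hx
    refine ⟨QuotientGroup.mk (⟨x, hx⟩ : SelG h O S u), ?_⟩
    have := hq (QuotientGroup.mk (⟨x, hx⟩ : SelG h O S u))
    rw [QuotientGroup.eq, Subgroup.mem_subgroupOf] at this
    exact this
  · rintro i ⟨y, hy⟩
    have hy0 : y ≠ 0 := by
      rintro rfl
      rw [mul_zero] at hy
      exact (r i).ne_zero hy
    rw [← hq i, QuotientGroup.eq, Subgroup.mem_subgroupOf]
    change (r i)⁻¹ * 1 ∈ sqL L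
    rw [mul_one]
    apply Subgroup.inv_mem
    refine ⟨Units.mk0 y hy0, ?_⟩
    ext
    rw [powMonoidHom_apply, Units.val_pow_eq_pow_val, Units.val_mk0, hy, pow_two]

variable {h : IsCub K a b θ} {S : Finset k[X]} {u : k[X] → k[X]} {N : ℕ} {ι : Type} [Fintype ι]
  {r : ι → Lˣ} {z : ι → Fin 3 → k[X]} {i₀ : ι}

theorem Reps.card (hr : Reps h O S u N r z i₀) : sz (SelG h O S u) = Fintype.card ι := by
  rw [← Nat.card_eq_fintype_card]
  exact relIndex_eq_card _ _ r hr.mem hr.inj hr.surj

theorem Reps.card_inf (hr : Reps h O S u N r z i₀) (T : Subgroup Lˣ) (hT : sqL L ≤ T) :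
    (sz (SelG h O S u ⊓ T) : ℝ) = ∑ i : ι, if r i ∈ T then 1 else 0 := by
  have h1 : sz (SelG h O S u ⊓ T) = Nat.card {i : ι // r i ∈ T} := by
    refine relIndex_eq_card _ _ (fun i : {i : ι // r i ∈ T} => r i.1) ?_ ?_ ?_
    · intro i
      exact ⟨hr.mem _, i.2⟩
    · intro i j hij
      exact Subtype.ext (hr.inj _ _ hij)
    · intro x hx
      obtain ⟨i, hi⟩ := hr.surj x hx.1
      refine ⟨⟨i, ?_⟩, hi⟩
      have h2 := hT hi
      have h3 : r i = x * ((r i)⁻¹ * x)⁻¹ := by
        rw [mul_inv_rev, inv_inv]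
        rw [← mul_assoc, mul_inv_cancel, one_mul]
      rw [h3]
      exact Subgroup.mul_mem _ hx.2 (Subgroup.inv_mem _ h2)
  rw [h1, Nat.card_eq_fintype_card, Fintype.card_subtype, Finset.sum_boole]

end reps

/-! ### One place -/

section place

variable {k K L O : Type} [Field k] [Finite k] [Field K] [Algebra k[X] K]
  [IsFractionRing k[X] K]
  [Field L] [Algebra K L] [Algebra k[X] L] [IsScalarTower k[X] K L] [CommRing O]
  [IsDedekindDomain O] [Algebra O L] [IsFractionRing O L] [Algebra k[X] O]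
  [IsScalarTower k[X] O L] [IsIntegralClosure O k[X] L] {a b : k[X]} {θ : L}

variable {h : IsCub K a b θ} {S : Finset k[X]} {u : k[X] → k[X]} {N : ℕ} {ι : Type} [Fintype ι]
  {r : ι → Lˣ} {z : ι → Fin 3 → k[X]} {i₀ : ι}

/-- The sum of the characters. -/
noncomputable def XX {F : Type} [Field F] [Fintype F] [Algebra k F] (a b : k[X])
    (z : ι → Fin 3 → k[X]) (t : F) : ℝ := ∑ i : ι, ∑ c ∈ rts a b t, chi (zev t c (z i))

/-- The number of zeros. -/
noncomputable def ZZ {F : Type} [Field F] [Fintype F] [Algebra k F] (a b : k[X])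
    (z : ι → Fin 3 → k[X]) (t : F) : ℝ :=
  ∑ i : ι, if ∃ c ∈ rts a b t, zev t c (z i) = 0 then 1 else 0

theorem place (hSTK : S_STK) (hDIC : S_DIC) (hSTEP : S_STEP) (h6 : (6 : k) ≠ 0)
    (hG : GoodT a b S u) (hr : Reps h O S u N r z i₀) (hs : sz (SelG h O S u) ≠ 0)
    {F : Type} [Field F] [Fintype F] [Algebra k F] (t : F)
    (ht : (minpoly k t).natDegree = Module.finrank k F) (hS : minpoly k t ∉ S)
    (hd : ¬ minpoly k t ∣ dsc a b) {w : k[X]} (hw : ¬ minpoly k t ∣ w) :
    (sz (SelG h O (insert (minpoly k t) S) (Function.update u (minpoly k t) w)) : ℝ) ≤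
      sz (SelG h O S u) * (3 + chi (- aeval t (dsc a b))) / 4 +
        XX a b z t * (5 - chi (- aeval t (dsc a b))) / 4 + 6 * ZZ a b z t := by
  have hint : IsIntegral k t := Algebra.IsIntegral.isIntegral t
  have hQm : (minpoly k t).Monic := minpoly.monic hint
  have hQi : Irreducible (minpoly k t) := minpoly.irreducible hint
  have hd' : aeval t (dsc a b) ≠ 0 := fun h0 => hd (minpoly.dvd k t h0)
  obtain ⟨T, hT, hsT, -, hT3, hT12, hT4⟩ :=
    hSTEP k K L O a b θ h6 h S u hG hs _ hQm hQi hS hd w hw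
  obtain ⟨hD0, hD1, hD2⟩ := hDIC k K L O a b θ h6 h F t ht hd
  set Q := minpoly k t with hQ
  set G := SelG h O S u with hGd
  set G' := SelG h O (insert Q S) (Function.update u Q w) with hGd'
  have hcard : (sz G : ℝ) = ∑ i : ι, (1 : ℝ) := by
    rw [hr.card]
    simp
  have hinf := hr.card_inf T hsT
  have hTr : ∀ i, (∀ c ∈ rts a b t, zev t c (z i) ≠ 0) →
      ((r i ∈ T ↔ ∀ c ∈ rts a b t, chi (zev t c (z i)) = 1) ∧
      ((rts a b t).card = 3 → ∏ c ∈ rts a b t, chi (zev t c (z i)) = 1)) := by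
    intro i hi
    have := hD2 (r i : L) (z i) (r i).ne_zero (hr.sel i).nsq (fun 𝔓 h𝔓 =>
      (hr.sel i).ev Q hQm hQi hS (fun h0 => hd ((dvd_pow_self Q two_ne_zero).trans h0)) 𝔓 h𝔓)
      (hr.crd i) hi
    rw [hT]
    exact this
  rcases hSTK k F a b t h6 hd' with ⟨h1, h2 | h2⟩ | ⟨h1, h2⟩
  · -- no zeros
    have e1 := hT3 (hD0 h2)
    have e2 : sz G' ≤ sz G := Subgroup.relIndex_le_of_le_right e1 hs
    have e3 : rts a b t = ∅ := Finset.card_eq_zero.1 h2
    have e4 : XX a b z t = 0 := by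
      unfold XX
      rw [e3]
      simp
    have e5 : (0 : ℝ) ≤ ZZ a b z t := by
      unfold ZZ
      apply Finset.sum_nonneg
      intro i _
      split_ifs <;> norm_num
    have e6 : (sz G' : ℝ) ≤ sz G := by exact_mod_cast e2
    rw [h1, e4]
    linarith
  · -- three zeros
    have e0 : (sz G' : ℝ) ≤ 4 * sz (G ⊓ T) := by exact_mod_cast hT4
    have e1 : (4 : ℝ) * sz (G ⊓ T) ≤ sz G + XX a b z t + 5 * ZZ a b z t := by
      rw [hinf, hcard]
      unfold XX ZZ
      rw [Finset.mul_sum, Finset.mul_sum, ← Finset.sum_add_distrib, ← Finset.sum_add_distrib]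
      apply Finset.sum_le_sum
      intro i _
      obtain ⟨x, y, v, hxy, hxv, hyv, hrt⟩ := Finset.card_eq_three.1 h2
      by_cases hi : ∃ c ∈ rts a b t, zev t c (z i) = 0
      · rw [if_pos hi]
        have hge : (-2 : ℝ) ≤ ∑ c ∈ rts a b t, chi (zev t c (z i)) := by
          rw [hrt] at hi ⊢
          rw [Finset.sum_insert (by simp [hxy, hxv]), Finset.sum_insert (by simp [hyv]),
            Finset.sum_singleton]
          have c1 := le_chi (zev t x (z i))
          have c2 := le_chi (zev t y (z i))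
          have c3 := le_chi (zev t v (z i))
          obtain ⟨c, hc, hc0⟩ := hi
          simp only [Finset.mem_insert, Finset.mem_singleton] at hc
          rcases hc with rfl | rfl | rfl
          · rw [hc0, chi_zero]; linarith
          · rw [hc0, chi_zero]; linarith
          · rw [hc0, chi_zero]; linarith
        split_ifs <;> linarith
      · rw [if_neg hi]
        push Not at hi
        obtain ⟨q1, q2⟩ := hTr i hi
        have q3 := q2 h2
        rw [hrt] at hi q1 q3 ⊢
        rw [Finset.prod_insert (by simp [hxy, hxv]), Finset.prod_insert (by simp [hyv]),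
            Finset.prod_singleton] at q3
        rw [Finset.sum_insert (by simp [hxy, hxv]), Finset.sum_insert (by simp [hyv]),
            Finset.sum_singleton]
        have c1 := chi_ne (hi x (by simp))
        have c2 := chi_ne (hi y (by simp))
        have c3 := chi_ne (hi v (by simp))
        have q4 : (r i ∈ T ↔ chi (zev t x (z i)) = 1 ∧ chi (zev t y (z i)) = 1 ∧
            chi (zev t v (z i)) = 1) := by
          rw [q1]
          simp
        by_cases hri : r i ∈ T
        · rw [if_pos hri]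
          obtain ⟨d1, d2, d3⟩ := q4.1 hri
          rw [d1, d2, d3]
          norm_num
        · rw [if_neg hri]
          rw [q4] at hri
          rcases c1 with c1 | c1 <;> rcases c2 with c2 | c2 <;> rcases c3 with c3 | c3 <;>
            rw [c1, c2, c3] at q3 hri ⊢ <;>
            first
            | (exfalso; exact hri ⟨rfl, rfl, rfl⟩)
            | (exfalso; norm_num at q3; done)
            | norm_num
    rw [h1]
    have e5 : (0 : ℝ) ≤ ZZ a b z t := by
      unfold ZZ
      apply Finset.sum_nonneg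
      intro i _
      split_ifs <;> norm_num
    linarith
  · -- one zero
    obtain ⟨f1, f2, f3⟩ := hT12 (hD1 h2)
    have e0 : (sz G' : ℝ) ≤ 3 * sz (G ⊓ T) - sz G := by
      have f3' : (sz G : ℝ) ≤ 2 * sz (G ⊓ T) := by exact_mod_cast f3
      by_cases hle : G ≤ T
      · have g1 : G ⊓ T = G := inf_eq_left.2 hle
        have f2' : (sz G' : ℝ) ≤ 2 * sz (G ⊓ T) := by exact_mod_cast f2
        rw [g1] at f2' ⊢
        linarith
      · have g2 := f1 hle
        have g3 : sz (G ⊓ T) ≠ 0 := by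
          intro h0
          rw [h0] at f3
          omega
        have g4 : sz G' ≤ sz (G ⊓ T) := Subgroup.relIndex_le_of_le_right g2 g3
        have g4' : (sz G' : ℝ) ≤ sz (G ⊓ T) := by exact_mod_cast g4
        linarith
    have e1 : (2 : ℝ) * sz (G ⊓ T) ≤ sz G + XX a b z t + ZZ a b z t := by
      rw [hinf, hcard]
      unfold XX ZZ
      rw [Finset.mul_sum, ← Finset.sum_add_distrib, ← Finset.sum_add_distrib]
      apply Finset.sum_le_sum
      intro i _
      obtain ⟨x, hrt⟩ := Finset.card_eq_one.1 h2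
      by_cases hi : ∃ c ∈ rts a b t, zev t c (z i) = 0
      · rw [if_pos hi]
        rw [hrt] at hi ⊢
        rw [Finset.sum_singleton]
        obtain ⟨c, hc, hc0⟩ := hi
        rw [Finset.mem_singleton] at hc
        subst hc
        rw [hc0, chi_zero]
        split_ifs <;> norm_num
      · rw [if_neg hi]
        push Not at hi
        obtain ⟨q1, -⟩ := hTr i hi
        rw [hrt] at hi q1 ⊢
        rw [Finset.sum_singleton]
        have q4 : (r i ∈ T ↔ chi (zev t x (z i)) = 1) := by
          rw [q1]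
          simp
        have c1 := chi_ne (hi x (by simp))
        by_cases hri : r i ∈ T
        · rw [if_pos hri, q4.1 hri]
          norm_num
        · rw [if_neg hri]
          rcases c1 with c1 | c1
          · exact absurd (q4.2 c1) hri
          · rw [c1]
            norm_num
    rw [h1]
    have e5 : (0 : ℝ) ≤ ZZ a b z t := by
      unfold ZZ
      apply Finset.sum_nonneg
      intro i _
      split_ifs <;> norm_num
    linarith

end place

/-! ### Constants times squares -/

section csq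

variable {k K L : Type} [Field k] [Field K] [Algebra k[X] K] [IsFractionRing k[X] K]
  [Field L] [Algebra K L] [Algebra k[X] L] [IsScalarTower k[X] K L] {a b p : k[X]} {θ : L}

theorem dsc_ne (h1 : ¬ p ^ 2 ∣ dsc a b) : dsc a b ≠ 0 := fun h0 => h1 (h0 ▸ dvd_zero _)

theorem not_csq (hp : Irreducible p) (h1 : p ∣ dsc a b) (h2 : ¬ p ^ 2 ∣ dsc a b) (c : k)
    (y : k[X]) : - dsc a b ≠ C c * y ^ 2 := by
  intro h0
  have hne := dsc_ne h2
  have hc : c ≠ 0 := by
    rintro rfl
    rw [C_0, zero_mul, neg_eq_zero] at h0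
    exact hne h0
  have hd : p ∣ C c * y ^ 2 := h0 ▸ (dvd_neg.2 h1)
  have hpy : p ∣ y := by
    rcases hp.prime.dvd_or_dvd hd with h | h
    · exact absurd (isUnit_of_dvd_unit h (isUnit_C.2 (isUnit_iff_ne_zero.2 hc))) hp.not_isUnit
    · exact hp.prime.dvd_of_dvd_pow h
  apply h2
  rw [← dvd_neg, h0]
  exact (pow_dvd_pow_of_dvd hpy 2).mul_left _

theorem not_csqK (hp : Irreducible p) (h1 : p ∣ dsc a b) (h2 : ¬ p ^ 2 ∣ dsc a b) (c : k)
    (r : K) : algebraMap k[X] K (- dsc a b) ≠ algebraMap k[X] K (C c) * r ^ 2 := by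
  intro h0
  have hinj := IsFractionRing.injective k[X] K
  have hne := dsc_ne h2
  have hc : c ≠ 0 := by
    rintro rfl
    rw [C_0, map_zero, zero_mul, map_eq_zero_iff _ hinj, neg_eq_zero] at h0
    exact hne h0
  have h3 : r ^ 2 = algebraMap k[X] K (C c⁻¹ * (- dsc a b)) := by
    rw [map_mul, h0, ← mul_assoc, ← map_mul, ← C_mul, inv_mul_cancel₀ hc, C_1, map_one, one_mul]
  have hint : IsIntegral k[X] r := by
    refine IsIntegral.of_pow (n := 2) (by norm_num) ?_
    rw [h3]
    exact isIntegral_algebraMap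
  obtain ⟨y, rfl⟩ := IsIntegrallyClosed.isIntegral_iff.mp hint
  apply not_csq hp h1 h2 c y
  apply hinj
  rw [h0, map_mul, map_pow]

theorem sq_of_norm (h : IsCub K a b θ) {α y : L} {x : K} (hα : α ≠ 0)
    (hsq : IsSquare (Algebra.norm K α)) (e : α = algebraMap K L x * y ^ 2) : IsSquare x := by
  have hfd : FiniteDimensional K L := Module.finite_of_finrank_pos (by rw [h.rank]; norm_num)
  have hx : x ≠ 0 := by
    rintro rfl
    rw [map_zero, zero_mul] at e
    exact hα e
  have hy : y ≠ 0 := by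
    rintro rfl
    rw [zero_pow two_ne_zero, mul_zero] at e
    exact hα e
  obtain ⟨n, hn⟩ := hsq
  have hny : Algebra.norm K y ≠ 0 := Algebra.norm_ne_zero_iff.2 hy
  rw [e, map_mul, map_pow, Algebra.norm_algebraMap, h.rank] at hn
  refine ⟨n / (x * Algebra.norm K y), ?_⟩
  field_simp
  linear_combination hn

theorem not_csqL (h : IsCub K a b θ) {α : L} (hα : α ≠ 0)
    (hsq : IsSquare (Algebra.norm K α)) (hn : ¬ IsSquare α) (c : k) (y : L) :
    α ≠ algebraMap k[X] L (C c) * y ^ 2 := by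
  intro e
  apply hn
  rw [IsScalarTower.algebraMap_apply k[X] K L] at e
  obtain ⟨r, hr⟩ := sq_of_norm h hα hsq e
  refine ⟨algebraMap K L r * y, ?_⟩
  rw [e, hr, map_mul]
  ring

theorem not_csqL' (h : IsCub K a b θ) (hp : Irreducible p) (h1 : p ∣ dsc a b)
    (h2 : ¬ p ^ 2 ∣ dsc a b) {α : L} (hα : α ≠ 0)
    (hsq : IsSquare (Algebra.norm K α)) (c : k) (y : L) :
    algebraMap k[X] L (- dsc a b) * α ≠ algebraMap k[X] L (C c) * y ^ 2 := by
  intro e
  have hinj := IsFractionRing.injective k[X] K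
  have hne : algebraMap k[X] K (- dsc a b) ≠ 0 := by
    rw [Ne, map_eq_zero_iff _ hinj, neg_eq_zero]
    exact dsc_ne h2
  have hneL : algebraMap K L (algebraMap k[X] K (- dsc a b)) ≠ 0 := by
    rw [Ne, map_eq_zero]
    exact hne
  rw [IsScalarTower.algebraMap_apply k[X] K L, IsScalarTower.algebraMap_apply k[X] K L] at e
  have e2 : α = algebraMap K L (algebraMap k[X] K (C c) / algebraMap k[X] K (- dsc a b)) *
      y ^ 2 := by
    rw [map_div₀]
    field_simp
    rw [mul_comm]
    rw [← e]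
  obtain ⟨r, hr⟩ := sq_of_norm h hα hsq e2
  have hr0 : r ≠ 0 := by
    rintro rfl
    rw [hr] at e2
    rw [mul_zero, map_zero, zero_mul] at e2
    exact hα e2
  apply not_csqK (K := K) hp h1 h2 c r⁻¹
  rw [div_eq_iff hne] at hr
  rw [hr]
  field_simp

theorem data_unit (h : IsCub K a b θ) (hp : Irreducible p) (h1 : p ∣ dsc a b)
    (h2 : ¬ p ^ 2 ∣ dsc a b) : Data (fun _ : Unit => a) (fun _ => b) (fun _ => p) where
  irr := by
    intro _
    have hm : (X ^ 3 + C a * X + C b : k[X][X]).Monic := by monicity!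
    have hd : (X ^ 3 + C a * X + C b : k[X][X]).natDegree = 3 := by compute_degree!
    rw [hm.irreducible_iff_roots_eq_zero_of_degree_le_three (by omega) (by omega)]
    rw [Multiset.eq_zero_iff_forall_notMem]
    intro r hr
    rw [mem_roots hm.ne_zero, IsRoot.def] at hr
    simp only [eval_add, eval_pow, eval_X, eval_mul, eval_C] at hr
    apply Run7.h225.TS.GRP.no_root h (algebraMap k[X] K r)
    rw [← map_pow, ← map_mul, ← map_add, ← map_add, hr, map_zero]
  pirr := fun _ => hp
  pd := fun _ => h1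
  pnd := fun _ => h2
  pne := fun i j hij => absurd (Subsingleton.elim i j) hij

end csq

/-! ### The sums -/

section sums

theorem card_rts_le {k F : Type} [Field k] [Field F] [Fintype F] [Algebra k F] (a b : k[X])
    (t : F) : (rts a b t).card ≤ 3 := by
  have hm : (X ^ 3 + C (aeval t a) * X + C (aeval t b) : F[X]).Monic := by monicity!
  have hd : (X ^ 3 + C (aeval t a) * X + C (aeval t b) : F[X]).natDegree = 3 := by
    compute_degree!
  have h2 : rts a b t ⊆ (X ^ 3 + C (aeval t a) * X + C (aeval t b) : F[X]).roots.toFinset := by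
    intro c hc
    unfold rts at hc
    rw [Finset.mem_filter] at hc
    rw [Multiset.mem_toFinset, mem_roots hm.ne_zero, IsRoot.def]
    simp only [eval_add, eval_pow, eval_X, eval_mul, eval_C]
    exact hc.2
  calc _ ≤ _ := Finset.card_le_card h2
    _ ≤ _ := Multiset.toFinset_card_le _
    _ ≤ _ := card_roots' _
    _ = _ := hd

variable {k K L : Type} [Field k] [Field K] [Algebra k[X] K] [IsFractionRing k[X] K]
  [Field L] [Algebra K L] [Algebra k[X] L] [IsScalarTower k[X] K L] {a b p : k[X]} {θ : L}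
  {F : Type} [Field F] [Fintype F] [Algebra k F] {ι : Type} [Fintype ι]

theorem XX_le (z : ι → Fin 3 → k[X]) (t : F) : XX a b z t ≤ 3 * Fintype.card ι := by
  unfold XX
  have h1 : ∀ i : ι, ∑ c ∈ rts a b t, chi (zev t c (z i)) ≤ 3 := by
    intro i
    calc _ ≤ ∑ c ∈ rts a b t, (1 : ℝ) := Finset.sum_le_sum fun c _ => chi_le _
      _ = ((rts a b t).card : ℝ) := by simp
      _ ≤ 3 := by exact_mod_cast card_rts_le a b t
  calc _ ≤ ∑ i : ι, (3 : ℝ) := Finset.sum_le_sum fun i _ => h1 i
    _ = _ := by simp [mul_comm]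

theorem le_XX (z : ι → Fin 3 → k[X]) (t : F) : -(3 * (Fintype.card ι : ℝ)) ≤ XX a b z t := by
  unfold XX
  have h1 : ∀ i : ι, -3 ≤ ∑ c ∈ rts a b t, chi (zev t c (z i)) := by
    intro i
    calc (-3 : ℝ) ≤ -((rts a b t).card : ℝ) := by
          have : ((rts a b t).card : ℝ) ≤ 3 := by exact_mod_cast card_rts_le a b t
          linarith
      _ = ∑ c ∈ rts a b t, (-1 : ℝ) := by simp
      _ ≤ _ := Finset.sum_le_sum fun c _ => le_chi _
  calc _ = ∑ i : ι, (-3 : ℝ) := by simp [mul_comm]
    _ ≤ _ := Finset.sum_le_sum fun i _ => h1 i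

theorem sum_ZZ (h : IsCub K a b θ) {r : ι → Lˣ} {z : ι → Fin 3 → k[X]} {N : ℕ}
    (hc : ∀ i, Crd θ (z i) (r i : L)) (hN : ∀ i l, (z i l).natDegree ≤ N) :
    ∑ t : F, ZZ a b z t ≤
      Fintype.card ι * ((3 * N + 2 * (a.natDegree + b.natDegree) : ℕ) : ℝ) := by
  have hfd : FiniteDimensional K L := Module.finite_of_finrank_pos (by rw [h.rank]; norm_num)
  unfold ZZ
  rw [Finset.sum_comm]
  calc _ ≤ ∑ i : ι, ((3 * N + 2 * (a.natDegree + b.natDegree) : ℕ) : ℝ) := by
        apply Finset.sum_le_sum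
        intro i _
        rw [Finset.sum_boole]
        have hne : Pool.Agent.N862.PP.dn a b (z i) ≠ 0 := by
          intro h0
          have := Pool.Agent.N862.PP.norm_crd h (hc i)
          rw [h0, map_zero, Algebra.norm_eq_zero_iff] at this
          exact (r i).ne_zero this
        have h1 : (Finset.univ.filter fun t : F => ∃ c ∈ rts a b t, zev t c (z i) = 0) ⊆
            Finset.univ.filter fun t : F => aeval t (Pool.Agent.N862.PP.dn a b (z i)) = 0 := by
          intro t ht
          rw [Finset.mem_filter] at ht ⊢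
          obtain ⟨-, c, hc1, hc2⟩ := ht
          refine ⟨Finset.mem_univ _, ?_⟩
          unfold rts at hc1
          rw [Finset.mem_filter] at hc1
          exact dn_eq_zero a b (z i) t c hc1.2 hc2
        exact_mod_cast (Finset.card_le_card h1).trans
          ((card_zeros hne).trans (natDegree_dn a b (z i) N (hN i)))
    _ = _ := by rw [Finset.sum_const, Finset.card_univ, nsmul_eq_mul]

/-- What is needed from `S_W`. -/
structure WU (K L : Type) [Field K] [Algebra k[X] K]
    [Field L] [Algebra K L] [Algebra k[X] L] (a b : k[X]) (θ : L) (C₂ : ℕ) (F : Type) [Field F]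
    [Fintype F] [Algebra k F] : Prop where
  a1 : ∑ t : F, ((rts a b t).card : ℝ) ≤ cd F + C₂ * √(cd F)
  a2 : |∑ t : F, chi (- aeval t (dsc a b))| ≤ C₂ * (1 + (dsc a b).natDegree) * √(cd F)
  a3 : ∀ (z : Fin 3 → k[X]) (α : L) (N : ℕ), Crd θ z α → (∀ l, (z l).natDegree ≤ N) →
    (∀ (c : k) (y : L), α ≠ algebraMap k[X] L (C c) * y ^ 2) →
    |∑ t : F, ∑ c ∈ rts a b t, chi (zev t c z)| ≤ C₂ * (1 + N) * √(cd F)

theorem exists_WU [Finite k] (hW : S_W) (h6 : (6 : k) ≠ 0) (h : IsCub K a b θ) (hp : Irreducible p)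
    (h1 : p ∣ dsc a b) (h2 : ¬ p ^ 2 ∣ dsc a b) :
    ∃ C₂ : ℕ, ∀ (F : Type) [Field F] [Fintype F] [Algebra k F], WU K L a b θ C₂ F := by
  obtain ⟨C₂, hC⟩ := hW k Unit _ _ _ h6 (data_unit h hp h1 h2)
  refine ⟨C₂, fun F _ _ _ => ⟨?_, ?_, ?_⟩⟩
  · have := (hC {()}).1 F
    simp only [Finset.prod_singleton] at this
    have := (abs_le.1 this).2
    linarith
  · have := (hC ∅).2.1 (- dsc a b) (not_csq hp h1 h2) F
    simp only [Finset.prod_empty, mul_one, map_neg, natDegree_neg] at this
    exact this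
  · intro z α N hcr hN hns
    have := (hC ∅).2.2 () (by simp) K L θ h z α N hcr hN hns F
    simp only [Finset.prod_empty, mul_one] at this
    exact this

theorem sum_XX (h : IsCub K a b θ) {C₂ : ℕ} (hC : WU K L a b θ C₂ F) {r : ι → Lˣ}
    {z : ι → Fin 3 → k[X]} {N : ℕ} {i₀ : ι}
    (hc : ∀ i, Crd θ (z i) (r i : L)) (hN : ∀ i l, (z i l).natDegree ≤ N)
    (hsq : ∀ i, IsSquare (Algebra.norm K (r i : L))) (h1 : ∀ i, IsSquare (r i : L) → i = i₀) :
    ∑ t : F, XX a b z t ≤ cd F + C₂ * √(cd F) + Fintype.card ι * (C₂ * (1 + N) * √(cd F)) := by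
  unfold XX
  rw [Finset.sum_comm]
  have hpos : 0 ≤ (C₂ * (1 + N) * √(cd F) : ℝ) := by positivity
  calc _ ≤ ∑ i : ι, ((if i = i₀ then cd F + C₂ * √(cd F) else 0) + C₂ * (1 + N) * √(cd F)) := by
        apply Finset.sum_le_sum
        intro i _
        by_cases hi : i = i₀
        · rw [if_pos hi]
          have : ∑ t : F, ∑ c ∈ rts a b t, chi (zev t c (z i)) ≤
              ∑ t : F, ((rts a b t).card : ℝ) := by
            apply Finset.sum_le_sum
            intro t _
            calc _ ≤ ∑ c ∈ rts a b t, (1 : ℝ) := Finset.sum_le_sum fun c _ => chi_le _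
              _ = _ := by simp
          have := hC.a1
          linarith
        · rw [if_neg hi, zero_add]
          exact (abs_le.1 (hC.a3 (z i) (r i : L) N (hc i) (hN i)
            (not_csqL h (r i).ne_zero (hsq i) (fun h0 => hi (h1 i h0))))).2
    _ = _ := by
        rw [Finset.sum_add_distrib, Finset.sum_const, Finset.card_univ, nsmul_eq_mul,
          Finset.sum_ite_eq' Finset.univ i₀, if_pos (Finset.mem_univ _)]

theorem sum_sXX (h : IsCub K a b θ) (hp : Irreducible p)
    (h1 : p ∣ dsc a b) (h2 : ¬ p ^ 2 ∣ dsc a b) {C₂ : ℕ} (hC : WU K L a b θ C₂ F) {r : ι → Lˣ}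
    {z : ι → Fin 3 → k[X]} {N : ℕ}
    (hc : ∀ i, Crd θ (z i) (r i : L)) (hN : ∀ i l, (z i l).natDegree ≤ N)
    (hsq : ∀ i, IsSquare (Algebra.norm K (r i : L))) :
    -(∑ t : F, chi (- aeval t (dsc a b)) * XX a b z t) ≤
      Fintype.card ι * (C₂ * (1 + (N + (dsc a b).natDegree : ℕ)) * √(cd F)) := by
  unfold XX
  simp only [Finset.mul_sum]
  rw [Finset.sum_comm, ← Finset.sum_neg_distrib]
  calc _ ≤ ∑ i : ι, (C₂ * (1 + (N + (dsc a b).natDegree : ℕ)) * √(cd F) : ℝ) := by
        apply Finset.sum_le_sum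
        intro i _
        have e : ∀ (t c : F), chi (- aeval t (dsc a b)) * chi (zev t c (z i)) =
            chi (zev t c (fun l => - dsc a b * z i l)) := by
          intro t c
          rw [← chi_mul]
          congr 1
          unfold zev
          simp only [map_mul, map_neg]
          ring
        simp only [e]
        have hcr : Crd θ (fun l => - dsc a b * z i l) (algebraMap k[X] L (- dsc a b) * (r i : L)) := by
          unfold Crd
          have := hc i
          unfold Crd at this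
          rw [this]
          simp only [map_mul]
          ring
        have hdeg : ∀ l, (- dsc a b * z i l).natDegree ≤ N + (dsc a b).natDegree := by
          intro l
          refine natDegree_mul_le.trans ?_
          rw [natDegree_neg]
          have := hN i l
          omega
        have := (abs_le.1 (hC.a3 _ _ (N + (dsc a b).natDegree) hcr hdeg
          (not_csqL' h hp h1 h2 (r i).ne_zero (hsq i)))).1
        linarith
    _ = _ := by rw [Finset.sum_const, Finset.card_univ, nsmul_eq_mul]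

end sums

/-! ### The theorem -/

section main

variable {k K L O : Type} [Field k] [Finite k] [Field K] [Algebra k[X] K]
  [IsFractionRing k[X] K]
  [Field L] [Algebra K L] [Algebra k[X] L] [IsScalarTower k[X] K L] [CommRing O]
  [IsDedekindDomain O] [Algebra O L] [IsFractionRing O L] [Algebra k[X] O]
  [IsScalarTower k[X] O L] [IsIntegralClosure O k[X] L] {a b p : k[X]} {θ : L}

variable {h : IsCub K a b θ} {S : Finset k[X]} {u : k[X] → k[X]} {N : ℕ} {ι : Type} [Fintype ι]
  {r : ι → Lˣ} {z : ι → Fin 3 → k[X]} {i₀ : ι}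

/-- The main term. -/
noncomputable def RR {F : Type} [Field F] [Fintype F] [Algebra k F] (a b : k[X])
    (z : ι → Fin 3 → k[X]) (t : F) : ℝ :=
  Fintype.card ι * (3 + chi (- aeval t (dsc a b))) / 4 +
        XX a b z t * (5 - chi (- aeval t (dsc a b))) / 4

theorem RR_ge {F : Type} [Field F] [Fintype F] [Algebra k F] (a b : k[X])
    (z : ι → Fin 3 → k[X]) (t : F) : -(6 * (Fintype.card ι : ℝ)) ≤ RR a b z t := by
  unfold RR
  have h1 := XX_le (a := a) (b := b) z t
  have h2 := le_XX (a := a) (b := b) z t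
  have h0 : (0 : ℝ) ≤ Fintype.card ι := by positivity
  rcases chi_cases (- aeval t (dsc a b)) with h3 | h3 | h3 <;> rw [h3] <;> linarith

theorem sum_RR (hp : Irreducible p) (h1 : p ∣ dsc a b) (h2 : ¬ p ^ 2 ∣ dsc a b)
    {F : Type} [Field F] [Fintype F] [Algebra k F] {C₂ : ℕ} (hC : WU K L a b θ C₂ F)
    (hr : Reps h O S u N r z i₀) :
    ∑ t : F, RR a b z t ≤ (3 / 4 * Fintype.card ι + 5 / 4) * cd F +
      (Fintype.card ι * (C₂ * (1 + (dsc a b).natDegree)) / 4 +
      5 / 4 * (C₂ + Fintype.card ι * (C₂ * (1 + N))) +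
      Fintype.card ι * (C₂ * (1 + (N + (dsc a b).natDegree))) / 4) * √(cd F) := by
  have e1 := (abs_le.1 hC.a2).2
  have e2 := sum_XX h hC hr.crd hr.deg (fun i => (hr.sel i).nsq) hr.one
  have e3 := sum_sXX h hp h1 h2 hC hr.crd hr.deg (fun i => (hr.sel i).nsq)
  have e4 : ∑ t : F, RR a b z t = 3 / 4 * Fintype.card ι * cd F +
      Fintype.card ι / 4 * ∑ t : F, chi (- aeval t (dsc a b)) + 5 / 4 * ∑ t : F, XX a b z t -
      1 / 4 * ∑ t : F, chi (- aeval t (dsc a b)) * XX a b z t := by
    have : cd F = ∑ t : F, (1 : ℝ) := by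
      unfold cd
      simp
    rw [this]
    simp only [Finset.mul_sum]
    rw [← Finset.sum_add_distrib, ← Finset.sum_add_distrib, ← Finset.sum_sub_distrib]
    apply Finset.sum_congr rfl
    intro t _
    unfold RR
    ring
  rw [e4]
  have h0 : (0 : ℝ) ≤ Fintype.card ι := by positivity
  have e5 := mul_le_mul_of_nonneg_left e1 h0
  push_cast at e3
  nlinarith [e1, e2, e3, e5]

theorem one_aux (hSTK : S_STK) (hDIC : S_DIC) (hSTEP : S_STEP) (h6 : (6 : k) ≠ 0)
    (hp : Irreducible p) (h1 : p ∣ dsc a b) (h2 : ¬ p ^ 2 ∣ dsc a b)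
    (hG : GoodT a b S u) (hr : Reps h O S u N r z i₀) (hs : sz (SelG h O S u) ≠ 0)
    {F : Type} [Field F] [Fintype F] [Algebra k F] {C₂ : ℕ} (hC : WU K L a b θ C₂ F)
    {m : ℕ} (hm : Module.finrank k F = m)
    (hT : ∀ φ : k[X] → ℝ, (m : ℝ) * ∑ Q ∈ irrD k m, φ Q =
      ∑ t ∈ Finset.univ.filter fun t : F => (minpoly k t).natDegree = m, φ (minpoly k t))
    (hT' : ((Finset.univ.filter fun t : F => (minpoly k t).natDegree ≠ m).card : ℝ) ≤ 2 * √(cd F))
    (w : k[X] → k[X]) (hw : ∀ Q : k[X], Irreducible Q → ¬ Q ∣ w Q) :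
    (m : ℝ) * ∑ Q ∈ (irrD k m).filter (fun Q => Q ∉ S ∧ ¬ Q ∣ dsc a b),
        (sz (SelG h O (insert Q S) (Function.update u Q (w Q))) : ℝ) ≤
      ∑ t : F, RR a b z t + 6 * (Fintype.card ι *
        ((3 * N + 2 * (a.natDegree + b.natDegree) : ℕ) : ℝ)) +
        6 * Fintype.card ι * (2 * √(cd F) + dg S + (dsc a b).natDegree) := by
  rw [Finset.sum_filter, hT, Finset.sum_filter]
  have h0 : (0 : ℝ) ≤ Fintype.card ι := by positivity
  have key : ∀ t : F, (if (minpoly k t).natDegree = m then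
      (if minpoly k t ∉ S ∧ ¬ minpoly k t ∣ dsc a b then
        (sz (SelG h O (insert (minpoly k t) S)
          (Function.update u (minpoly k t) (w (minpoly k t)))) : ℝ) else 0) else 0) ≤
      RR a b z t + 6 * ZZ a b z t + 6 * Fintype.card ι *
        ((if (minpoly k t).natDegree ≠ m then 1 else 0) + (if minpoly k t ∈ S then 1 else 0) +
          (if aeval t (dsc a b) = 0 then 1 else 0)) := by
    intro t
    have hZ : (0 : ℝ) ≤ ZZ a b z t := by
      unfold ZZ
      apply Finset.sum_nonneg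
      intro i _
      split_ifs <;> norm_num
    have hR := RR_ge a b z t
    have hint : IsIntegral k t := Algebra.IsIntegral.isIntegral t
    have hQi : Irreducible (minpoly k t) := minpoly.irreducible hint
    have E1 : (0 : ℝ) ≤ (if (minpoly k t).natDegree ≠ m then 1 else 0) := by
      split_ifs <;> norm_num
    have E2 : (0 : ℝ) ≤ (if minpoly k t ∈ S then 1 else 0) := by
      split_ifs <;> norm_num
    have E3 : (0 : ℝ) ≤ (if aeval t (dsc a b) = 0 then 1 else 0) := by
      split_ifs <;> norm_num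
    by_cases c1 : (minpoly k t).natDegree = m
    · by_cases c2 : minpoly k t ∉ S ∧ ¬ minpoly k t ∣ dsc a b
      · rw [if_pos c1, if_pos c2]
        have := place hSTK hDIC hSTEP h6 hG hr hs t (c1.trans hm.symm) c2.1 c2.2 (hw _ hQi)
        rw [hr.card] at this
        refine this.trans ?_
        have : 0 ≤ 6 * (Fintype.card ι : ℝ) * ((if (minpoly k t).natDegree ≠ m then 1 else 0) +
            (if minpoly k t ∈ S then 1 else 0) + (if aeval t (dsc a b) = 0 then 1 else 0)) := by
          positivity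
        unfold RR
        linarith
      · rw [if_pos c1, if_neg c2]
        by_cases c3 : minpoly k t ∈ S
        · rw [if_pos c3]
          have : 6 * (Fintype.card ι : ℝ) * 1 ≤ 6 * (Fintype.card ι : ℝ) *
              ((if (minpoly k t).natDegree ≠ m then 1 else 0) +
            1 + (if aeval t (dsc a b) = 0 then 1 else 0)) := by
            apply mul_le_mul_of_nonneg_left _ (by positivity)
            linarith
          linarith
        · have c4 : minpoly k t ∣ dsc a b := by
            by_contra c4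
            exact c2 ⟨c3, c4⟩
          have c5 : aeval t (dsc a b) = 0 := by
            obtain ⟨v, hv⟩ := c4
            rw [hv, map_mul, minpoly.aeval, zero_mul]
          rw [if_pos c5]
          have : 6 * (Fintype.card ι : ℝ) * 1 ≤ 6 * (Fintype.card ι : ℝ) *
              ((if (minpoly k t).natDegree ≠ m then 1 else 0) +
            (if minpoly k t ∈ S then 1 else 0) + 1) := by
            apply mul_le_mul_of_nonneg_left _ (by positivity)
            linarith
          linarith
    · rw [if_neg c1]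
      rw [if_pos c1]
      have : 6 * (Fintype.card ι : ℝ) * 1 ≤ 6 * (Fintype.card ι : ℝ) *
              (1 + (if minpoly k t ∈ S then 1 else 0) +
                (if aeval t (dsc a b) = 0 then 1 else 0)) := by
        apply mul_le_mul_of_nonneg_left _ (by positivity)
        linarith
      linarith
  refine (Finset.sum_le_sum fun t _ => key t).trans ?_
  rw [Finset.sum_add_distrib, Finset.sum_add_distrib, ← Finset.mul_sum, ← Finset.mul_sum,
    Finset.sum_add_distrib, Finset.sum_add_distrib, Finset.sum_boole, Finset.sum_boole,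
    Finset.sum_boole]
  have f1 := sum_ZZ (F := F) h hr.crd hr.deg
  have f2 : ((Finset.univ.filter fun t : F => minpoly k t ∈ S).card : ℝ) ≤ dg S := by
    exact_mod_cast card_minpoly S (fun P hP => (hG.irr P hP).ne_zero)
  have f3 : ((Finset.univ.filter fun t : F => aeval t (dsc a b) = 0).card : ℝ) ≤
      (dsc a b).natDegree := by
    exact_mod_cast card_zeros (dsc_ne h2)
  have f4 : 6 * (Fintype.card ι : ℝ) *
      (((Finset.univ.filter fun t : F => (minpoly k t).natDegree ≠ m).card : ℝ) +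
      ((Finset.univ.filter fun t : F => minpoly k t ∈ S).card : ℝ) +
      ((Finset.univ.filter fun t : F => aeval t (dsc a b) = 0).card : ℝ)) ≤
      6 * (Fintype.card ι : ℝ) * (2 * √(cd F) + dg S + (dsc a b).natDegree) := by
    apply mul_le_mul_of_nonneg_left _ (by positivity)
    linarith
  linarith

end main

theorem one (hW : S_W) (hSTK : S_STK) (hTRS : S_TRS) (hDIC : S_DIC) (hSTEP : S_STEP)
    (hREP : S_REP) (hGRP : S_GRP) : S_ONE := by
  intro k K L O _ _ _ _ _ _ _ _ _ _ _ _ _ _ _ _ a b θ h6 h ⟨p, hp, h1, h2⟩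
  obtain ⟨⟨C₁, hC₁⟩, hfin⟩ := hREP k K L O a b θ h6 h
  obtain ⟨C₂, hC₂⟩ := exists_WU (K := K) (L := L) hW h6 h hp h1 h2
  refine ⟨C₂ * (1 + (dsc a b).natDegree) + 2 * C₂ + 2 * C₂ * (1 + C₁) +
    C₂ * (1 + C₁ + (dsc a b).natDegree) + 18 + 6 * (dsc a b).natDegree + 18 * C₁ +
      12 * (a.natDegree + b.natDegree), ?_⟩
  intro S u hG w hw m hm
  have hs : sz (SelG h O S u) ≠ 0 := hfin S u hG (hGRP k K L O a b θ h6 h S u hG).1
  obtain ⟨ι, _, r, z, i₀, hr⟩ := exists_reps (N := C₁ * (1 + dg S)) hGRP h6 h hG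
    (fun α hα => hC₁ S u hG α hα) hs
  obtain ⟨F, _, _, _, hF1, hF2, hF3, hF4⟩ := hTRS k m hm
  have e1 := one_aux hSTK hDIC hSTEP h6 hp h1 h2 hG hr hs (hC₂ F) hF1 hF3 hF4 w hw
  have e2 := sum_RR hp h1 h2 (hC₂ F) hr
  have hcard := hr.card
  have hs1 : (1 : ℝ) ≤ Fintype.card ι := by
    rw [← hcard]
    exact_mod_cast Nat.one_le_iff_ne_zero.2 hs
  rw [hcard, ← hF2]
  have hq : (1 : ℝ) ≤ cd F := by
    rw [hF2]
    apply one_le_pow₀
    exact_mod_cast (Nat.card_pos : 0 < Nat.card k)
  have hM : (1 : ℝ) ≤ √(cd F) := by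
    rw [Real.one_le_sqrt]
    exact hq
  refine e1.trans ?_
  refine (add_le_add_left (add_le_add_left e2 _) _).trans ?_
  push_cast
  set s : ℝ := (Fintype.card ι : ℝ) with hs_def
  set M : ℝ := √(cd F) with hM_def
  set g : ℝ := (dg S : ℝ) with hg_def
  set D : ℝ := ((dsc a b).natDegree : ℝ) with hD_def
  set E : ℝ := (a.natDegree : ℝ) with hE_def
  set E' : ℝ := (b.natDegree : ℝ) with hE'_def
  set c₁ : ℝ := (C₁ : ℝ) with hc₁_def
  set c₂ : ℝ := (C₂ : ℝ) with hc₂_def
  have hg : 0 ≤ g := by positivity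
  have hD : 0 ≤ D := by positivity
  have hE : 0 ≤ E := by positivity
  have hE' : 0 ≤ E' := by positivity
  have hc1 : 0 ≤ c₁ := by positivity
  have hc2 : 0 ≤ c₂ := by positivity
  clear_value s M g D E E' c₁ c₂
  have hs0 : 0 ≤ s := by linarith
  have hM0 : 0 ≤ M := by linarith
  set V : ℝ := (1 + g) * M * s with hV
  have hV0 : 0 ≤ V := by positivity
  have v1 : M * s ≤ V := by
    rw [hV]
    nlinarith [mul_nonneg hg (mul_nonneg hM0 hs0)]
  have v2 : M ≤ V := by nlinarith [mul_nonneg hM0 (sub_nonneg.2 hs1)]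
  have v3 : s * (1 + g) ≤ V := by
    rw [hV]
    nlinarith [mul_nonneg (mul_nonneg hs0 (by linarith : (0 : ℝ) ≤ 1 + g)) (sub_nonneg.2 hM)]
  have v4 : s ≤ V := by nlinarith [mul_nonneg hs0 hg]
  have v5 : s * g ≤ V := by nlinarith [mul_nonneg hs0 hg]
  have w1 : c₂ * (1 + D) * (M * s) ≤ c₂ * (1 + D) * V :=
    mul_le_mul_of_nonneg_left v1 (by positivity)
  have w2 : c₂ * M ≤ c₂ * V := mul_le_mul_of_nonneg_left v2 hc2
  have w3 : c₂ * (M * s) ≤ c₂ * V := mul_le_mul_of_nonneg_left v1 hc2
  have w4 : c₁ * (s * (1 + g)) ≤ c₁ * V := mul_le_mul_of_nonneg_left v3 hc1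
  have w5 : (E + E') * s ≤ (E + E') * V := mul_le_mul_of_nonneg_left v4 (by positivity)
  have w6 : D * s ≤ D * V := mul_le_mul_of_nonneg_left v4 hD
  have x1 : 0 ≤ c₂ * V := by positivity
  have x2 : 0 ≤ c₂ * D * V := by positivity
  have x3 : 0 ≤ c₂ * c₁ * V := by positivity
  have x4 : 0 ≤ c₁ * V := by positivity
  have x5 : 0 ≤ (E + E') * V := by positivity
  have x6 : 0 ≤ D * V := by positivity
  have main : (s * (c₂ * (1 + D)) / 4 + 5 / 4 * (c₂ + s * (c₂ * (1 + c₁ * (1 + g)))) +
      s * (c₂ * (1 + (c₁ * (1 + g) + D))) / 4) * M +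
      6 * (s * (3 * (c₁ * (1 + g)) + 2 * (E + E'))) + 6 * s * (2 * M + g + D) ≤
      (c₂ * (1 + D) + 2 * c₂ + 2 * c₂ * (1 + c₁) + c₂ * (1 + c₁ + D) + 18 + 6 * D + 18 * c₁ +
        12 * (E + E')) * V := by
    have y1 : (s * (c₂ * (1 + D)) / 4 + 5 / 4 * (c₂ + s * (c₂ * (1 + c₁ * (1 + g)))) +
      s * (c₂ * (1 + (c₁ * (1 + g) + D))) / 4) * M =
      1 / 4 * (c₂ * (1 + D) * (M * s)) + 5 / 4 * (c₂ * M) + 5 / 4 * (c₂ * (M * s)) +
      5 / 4 * (c₂ * c₁ * V) + 1 / 4 * (c₂ * (1 + D) * (M * s)) + 1 / 4 * (c₂ * c₁ * V) := by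
      rw [hV]; ring
    have y2 : 6 * (s * (3 * (c₁ * (1 + g)) + 2 * (E + E'))) = 18 * (c₁ * (s * (1 + g))) +
      12 * ((E + E') * s) := by ring
    have y3 : 6 * s * (2 * M + g + D) = 12 * (M * s) + 6 * (s * g) + 6 * (D * s) := by ring
    rw [y1, y2, y3]
    nlinarith
  have e9 : (c₂ * (1 + D) + 2 * c₂ + 2 * c₂ * (1 + c₁) + c₂ * (1 + c₁ + D) + 18 + 6 * D + 18 * c₁ +
        12 * (E + E')) * (1 + g) * M * s = (c₂ * (1 + D) + 2 * c₂ + 2 * c₂ * (1 + c₁) +
        c₂ * (1 + c₁ + D) + 18 + 6 * D + 18 * c₁ + 12 * (E + E')) * V := by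
    rw [hV]; ring
  rw [e9]
  linarith

end Run7.h784.TS
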